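import Mathlib
import Pool.Agent.H.MP_efd99a_gt.F

set_option autoImplicit false

namespace Pool.Agent.Results.MP_efd99a_gt.No

open Pool.Agent.H.MP_efd99a_gt

/-- The manifold `M` of unit rank-one tensors in `R^4 ⊗ R^4 ⊗ R^4` is a compact connected symmetric
space whose antipodal sets have at most 8 points, while its total mod 2 Betti number is at least 9. -/
theorem result : IsCompact M ∧ IsConnected M ∧ IsSubmanifold9 M ∧
    ∃ s, IsSymmetries M s ∧ (∀ A ⊆ M, Antipodal s A → A.encard ≤ 8) ∧
      9 ≤ Cardinal.sum fun k => betti M k :=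
  main

end Pool.Agent.Results.MP_efd99a_gt.No
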